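import Pool.Agent.J4H13.BC.Orbit

/-!
# Curves connecting orbits, in families of rational curves
-/

set_option autoImplicit false

open MvPolynomial

namespace Pool.Agent.J4H13.RL

open Pool.Agent.Helper397.HK Pool.Agent.J4H13.BC

section loc

variable {S : Type} [CommRing S] [IsDomain S] [Algebra ℂ S]

/-- the inclusion of a localization in the fraction field -/
noncomputable def locInclG (g : S) (hg : g ≠ 0) :
    Localization.Away g →ₐ[S] FractionRing S :=
  IsLocalization.liftAlgHom (M := Submonoid.powers g)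
    (f := Algebra.ofId S (FractionRing S)) (by
      rintro ⟨_, n, rfl⟩
      change IsUnit (algebraMap S (FractionRing S) (g ^ n))
      rw [map_pow]
      refine IsUnit.pow n (isUnit_iff_ne_zero.2 ?_)
      rwa [Ne, map_eq_zero_iff _ (IsFractionRing.injective S (FractionRing S))])

omit [Algebra ℂ S] in
lemma locInclG_mk (g : S) (hg : g ≠ 0) (p : S) :
    locInclG g hg (algebraMap _ _ p) = algebraMap _ _ p := (locInclG g hg).commutes p

omit [IsDomain S] [Algebra ℂ S] in
lemma away_surjG (g : S) (z : Localization.Away g) :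
    ∃ (k : ℕ) (p : S), z * algebraMap S (Localization.Away g) g ^ k = algebraMap _ _ p := by
  obtain ⟨⟨p, ⟨_, k, rfl⟩⟩, h⟩ := IsLocalization.surj (Submonoid.powers g) z
  refine ⟨k, p, ?_⟩
  rw [← map_pow]
  exact h

lemma locInclG_injective (g : S) (hg : g ≠ 0) : Function.Injective (locInclG g hg) := by
  rw [injective_iff_map_eq_zero]
  intro z hz
  obtain ⟨k, p, h⟩ := away_surjG g z
  have h1 := congrArg (locInclG g hg) h
  rw [map_mul, hz, zero_mul, locInclG_mk] at h1
  have h2 : p = 0 := (map_eq_zero_iff _ (IsFractionRing.injective S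
    (FractionRing S))).1 h1.symm
  rw [h2, map_zero] at h
  have h3 : IsUnit (algebraMap S (Localization.Away g) g ^ k) :=
    (IsLocalization.Away.algebraMap_isUnit g).pow k
  exact (h3.mul_left_eq_zero).1 h

/-- homomorphisms from finitely generated algebras factor through a localization -/
theorem exists_away_gen {B : Type} [CommRing B] [Algebra ℂ B] [Algebra.FiniteType ℂ B]
    (j : B →ₐ[ℂ] FractionRing S) (hj : Function.Injective j) :
    ∃ (g : S) (hg : g ≠ 0) (j' : B →ₐ[ℂ] Localization.Away g), Function.Injective j' ∧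
      ∀ b, locInclG g hg (j' b) = j b := by
  classical
  obtain ⟨s, hs⟩ := (inferInstance : Algebra.FiniteType ℂ B).out
  obtain ⟨⟨g, hg⟩, hgs⟩ := IsLocalization.exist_integer_multiples_of_finset
    (nonZeroDivisors S) (s.image j)
  have hg0 : g ≠ 0 := nonZeroDivisors.ne_zero hg
  refine ⟨g, hg0, ?_⟩
  let ι : Localization.Away g →ₐ[ℂ] FractionRing S := (locInclG g hg0).restrictScalars ℂ
  have hι : Function.Injective ι := locInclG_injective g hg0
  have hιg : ι (algebraMap S (Localization.Away g) g) = algebraMap _ _ g :=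
    locInclG_mk g hg0 g
  have hgF : (algebraMap S (FractionRing S) g) ≠ 0 := by
    rwa [Ne, map_eq_zero_iff _ (IsFractionRing.injective S (FractionRing S))]
  have hrange : ∀ b, j b ∈ ι.range := by
    have h1 : (⊤ : Subalgebra ℂ B) ≤ ι.range.comap j := by
      rw [← hs]
      apply Algebra.adjoin_le
      intro b hb
      change j b ∈ ι.range
      obtain ⟨p, hp⟩ := hgs (j b) (Finset.mem_image_of_mem j hb)
      refine ⟨algebraMap _ _ p * IsLocalization.Away.invSelf g, ?_⟩
      have h2 := congrArg ι (IsLocalization.Away.mul_invSelf (S := Localization.Away g) g)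
      rw [map_mul, map_one, hιg] at h2
      change ι _ = _
      rw [map_mul, show ι (algebraMap _ _ p) = algebraMap _ _ p from locInclG_mk g hg0 p, hp,
        Algebra.smul_def]
      change algebraMap S (FractionRing S) g * j b * _ = j b
      rw [mul_comm _ (j b), mul_assoc, h2, mul_one]
    intro b
    exact h1 trivial
  refine ⟨(AlgEquiv.ofInjective ι hι).symm.toAlgHom.comp (j.codRestrict ι.range hrange), ?_, ?_⟩
  · intro b b' h
    have h1 : (j.codRestrict ι.range hrange) b = (j.codRestrict ι.range hrange) b' :=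
      (AlgEquiv.ofInjective ι hι).symm.injective h
    exact hj (congrArg Subtype.val h1)
  · intro b
    have h1 := (AlgEquiv.ofInjective ι hι).apply_symm_apply ((j.codRestrict ι.range hrange) b)
    exact congrArg Subtype.val h1

end loc

/-- Two points of a localization on a rational curve. -/
theorem line_gen {S : Type} [CommRing S] [Algebra ℂ S] {g : S}
    (l l' : Localization.Away g →ₐ[ℂ] ℂ) (Λ : S →ₐ[ℂ] Polynomial ℂ)
    (hΛ0 : ∀ p, (Λ p).eval 0 = l (algebraMap S _ p))
    (hΛ1 : ∀ p, (Λ p).eval 1 = l' (algebraMap S _ p)) :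
    ∃ θ : Localization.Away g →ₐ[ℂ] F1, ∀ (M : Type) [Field M] [Algebra ℂ M] (i : F1 →ₐ[ℂ] M)
      (V : ValuationSubring M), (∀ c : ℂ, algebraMap ℂ M c ∈ V) → ∀ t : M,
      t = i (algebraMap (Polynomial ℂ) F1 Polynomial.X) →
      (t ∈ V.nonunits → ∀ z, i (θ z) - algebraMap ℂ M (l z) ∈ V.nonunits) ∧
      (t - 1 ∈ V.nonunits → ∀ z, i (θ z) - algebraMap ℂ M (l' z) ∈ V.nonunits) := by
  classical
  have hg : l (algebraMap S _ g) ≠ 0 := by
    intro h
    have h2 := congrArg l (IsLocalization.Away.mul_invSelf (S := Localization.Away g) g)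
    rw [map_mul, map_one, h, zero_mul] at h2
    exact zero_ne_one h2
  have hg' : l' (algebraMap S _ g) ≠ 0 := by
    intro h
    have h2 := congrArg l' (IsLocalization.Away.mul_invSelf (S := Localization.Away g) g)
    rw [map_mul, map_one, h, zero_mul] at h2
    exact zero_ne_one h2
  have hline : Λ g ≠ 0 := by
    intro h
    apply hg
    rw [← hΛ0, h, Polynomial.eval_zero]
  have hinj : Function.Injective (algebraMap (Polynomial ℂ) F1) :=
    IsFractionRing.injective (Polynomial ℂ) F1
  let θ₀ : S →ₐ[ℂ] F1 := (Algebra.algHom ℂ (Polynomial ℂ) F1).comp (Λ)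
  have hunit : ∀ y : Submonoid.powers g, IsUnit (θ₀ y) := by
    rintro ⟨_, n, rfl⟩
    change IsUnit (θ₀ (g ^ n))
    rw [map_pow]
    refine IsUnit.pow n (isUnit_iff_ne_zero.2 ?_)
    change algebraMap (Polynomial ℂ) F1 (Λ g) ≠ 0
    rwa [Ne, map_eq_zero_iff _ hinj]
  let θ : Localization.Away g →ₐ[ℂ] F1 :=
    { IsLocalization.lift (M := Submonoid.powers g) (g := (θ₀ : S →+* F1)) hunit with
      commutes' := by
        intro c
        change IsLocalization.lift (M := Submonoid.powers g) (g := (θ₀ : S →+* F1)) hunit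
          (algebraMap ℂ (Localization.Away g) c) = _
        rw [IsScalarTower.algebraMap_apply ℂ (S) (Localization.Away g),
          IsLocalization.lift_eq]
        exact θ₀.commutes c }
  have hθ : ∀ p : S, θ (algebraMap _ _ p) = algebraMap (Polynomial ℂ) F1 (Λ p) := by
    intro p
    change IsLocalization.lift (M := Submonoid.powers g) (g := (θ₀ : S →+* F1)) hunit
          (algebraMap (S) (Localization.Away g) p) = _
    rw [IsLocalization.lift_eq]
    rfl
  refine ⟨θ, ?_⟩
  intro M _ _ i V hC t ht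
  -- values of polynomials
  have hpol : ∀ q : Polynomial ℂ, i (algebraMap (Polynomial ℂ) F1 q) = Polynomial.aeval t q := by
    intro q
    have h1 : (i.comp (Algebra.algHom ℂ (Polynomial ℂ) F1)) = Polynomial.aeval t := by
      apply Polynomial.algHom_ext
      rw [Polynomial.aeval_X, ht]
      rfl
    rw [← h1]
    rfl
  have key : ∀ (c₀ : ℂ) (l₀ : Localization.Away g →ₐ[ℂ] ℂ),
      (∀ p, (Λ p).eval c₀ = l₀ (algebraMap S _ p)) → l₀ (algebraMap S _ g) ≠ 0 →
      t - algebraMap ℂ M c₀ ∈ V.nonunits → ∀ z, i (θ z) - algebraMap ℂ M (l₀ z) ∈ V.nonunits := by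
    intro c₀ l₀ hev hg₀ htV z
    have htV' : t ∈ V := mem_of_sub hC htV
    have h1 : ∀ p : S, i (θ (algebraMap _ _ p)) - algebraMap ℂ M (l₀ (algebraMap S _ p)) ∈ V.nonunits := by
      intro p
      rw [hθ, hpol, ← hev]
      exact aeval_sub_mem hC htV' htV _
    obtain ⟨k, p, hp⟩ := away_surjG g z
    have hG := h1 g
    set G : M := i (θ (algebraMap _ _ g)) with hGdef
    have hGn : G ∉ V.nonunits := notMem_nonunits_of_sub hC hg₀ hG
    have hGV : G ∈ V := mem_of_sub hC hG
    have hG0 : G ≠ 0 := fun h => hGn (by rw [h]; exact V.nonunits.zero_mem)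
    have hinvV : (G ^ k)⁻¹ ∈ V := by
      rw [← inv_pow]
      exact pow_mem (show G⁻¹ ∈ V from inv_mem_of_notMem_nonunits hGn) k
    have h2 : i (θ z) * G ^ k = i (θ (algebraMap _ _ p)) := by
      rw [← hp, map_mul, map_mul, map_pow, map_pow]
    have h3 : l₀ z * (l₀ (algebraMap S _ g)) ^ k = l₀ (algebraMap S _ p) := by
      rw [← hp, map_mul, map_pow]
    have h4 : G ^ k - algebraMap ℂ M ((l₀ (algebraMap S _ g)) ^ k) ∈ V.nonunits := by
      have h5 := h1 (g ^ k)
      rw [map_pow, map_pow, map_pow, map_pow] at h5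
      exact h5
    have h6 := V.nonunits.sub_mem (h1 p) (nonunits_mul (hC (l₀ z)) h4)
    have h7 := nonunits_mul hinvV h6
    convert h7 using 1
    rw [← h2, ← h3, map_mul, map_pow]
    have h8 : G ^ k ≠ 0 := pow_ne_zero k hG0
    field_simp
    ring
  refine ⟨fun h => key 0 l hΛ0 hg ?_, fun h => key 1 l' hΛ1 hg' ?_⟩
  · rwa [map_zero, sub_zero]
  · rwa [map_one]

/-- **Curves connecting orbits.** -/
theorem exists_conn_rel {A H : Type} [CommRing A] [IsDomain A] [Algebra ℂ A] [Algebra.FiniteType ℂ A]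
    [Group H] [Finite H] [MulSemiringAction H A] [SMulCommClass H ℂ A]
    {R : Type} [CommRing R] [IsDomain R] [Algebra ℂ R] [Algebra.FiniteType ℂ R]
    (j : FixedPoints.subalgebra ℂ A H →ₐ[ℂ] FractionRing (Polynomial R))
    (hj : Function.Injective j) (ρ : R →ₐ[ℂ] FixedPoints.subalgebra ℂ A H)
    (hρ : ∀ r, j (ρ r) = algebraMap (Polynomial R) _ (Polynomial.C r)) :
    ∃ h : A, h ≠ 0 ∧ (∀ σ : H, σ • h = h) ∧ ∀ φ φ' : A →ₐ[ℂ] ℂ, φ h ≠ 0 → φ' h ≠ 0 →
      (∀ r, φ (ρ r) = φ' (ρ r)) →
      ∃ (M : Type) (_ : Field M) (_ : Algebra ℂ M) (u : M) (Θ : A →ₐ[ℂ] M), CurveField M ∧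
        Transcendental ℂ u ∧
        (∀ V : ValuationSubring M, (∀ c : ℂ, algebraMap ℂ M c ∈ V) → u ∈ V.nonunits →
          ∃ σ : H, ∀ a, Θ a - algebraMap ℂ M (φ (σ • a)) ∈ V.nonunits) ∧
        (∀ V : ValuationSubring M, (∀ c : ℂ, algebraMap ℂ M c ∈ V) → u⁻¹ ∈ V.nonunits →
          ∃ σ : H, ∀ a, Θ a - algebraMap ℂ M (φ' (σ • a)) ∈ V.nonunits) := by
  classical
  have hB := finiteType_fixed (A := A) (H := H)
  have hinv := isInvariant_fixed (A := A) (H := H)
  have hint : Algebra.IsIntegral (FixedPoints.subalgebra ℂ A H) A :=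
    Algebra.IsInvariant.isIntegral (FixedPoints.subalgebra ℂ A H) A H
  obtain ⟨g, hg, j', hj', hjj'⟩ := exists_away_gen j hj
  have hdom : IsDomain (Localization.Away g) :=
    IsLocalization.isDomain_localization (powers_le_nonZeroDivisors_of_noZeroDivisors hg)
  have hLft : Algebra.FiniteType ℂ (Localization.Away g) := by
    have h1 : Algebra.FiniteType (Polynomial R) (Localization.Away g) :=
      IsLocalization.finiteType_of_monoid_fg (Submonoid.powers g) _
    have h2 : Algebra.FiniteType ℂ (Polynomial R) :=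
      Algebra.FiniteType.trans (S := R) inferInstance inferInstance
    exact Algebra.FiniteType.trans (S := Polynomial R) h2 h1
  -- the constants
  have hρ' : ∀ r, j' (ρ r) = algebraMap (Polynomial R) (Localization.Away g) (Polynomial.C r) := by
    intro r
    apply locInclG_injective g hg
    rw [hjj', hρ, locInclG_mk]
  obtain ⟨h, hh, hext⟩ := generic_ext j' hj' 1 one_ne_zero
  refine ⟨h, fun h0 => hh (Subtype.ext h0), fun σ => h.2 σ, ?_⟩
  intro φ φ' hφ hφ' hφφ'
  obtain ⟨l, hl, -⟩ := hext (φ.comp (FixedPoints.subalgebra ℂ A H).val) hφ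
  obtain ⟨l', hl', -⟩ := hext (φ'.comp (FixedPoints.subalgebra ℂ A H).val) hφ'
  have hlc : ∀ r, l (algebraMap (Polynomial R) (Localization.Away g) (Polynomial.C r)) =
      φ (ρ r) := by
    intro r
    rw [← hρ', hl]
    rfl
  have hlc' : ∀ r, l' (algebraMap (Polynomial R) (Localization.Away g) (Polynomial.C r)) =
      φ (ρ r) := by
    intro r
    rw [← hρ', hl', hφφ']
    rfl
  obtain ⟨a, ha⟩ : ∃ a, a = l (algebraMap (Polynomial R) (Localization.Away g) Polynomial.X) :=
    ⟨_, rfl⟩
  obtain ⟨a', ha'⟩ : ∃ a, a = l' (algebraMap (Polynomial R) (Localization.Away g) Polynomial.X) :=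
    ⟨_, rfl⟩
  let κ : R →ₐ[ℂ] Polynomial ℂ := (Algebra.ofId ℂ (Polynomial ℂ)).comp
    (φ.comp ((FixedPoints.subalgebra ℂ A H).val.comp ρ))
  let Λ : Polynomial R →ₐ[ℂ] Polynomial ℂ := Polynomial.eval₂AlgHom κ
    (Polynomial.C a + Polynomial.C (a' - a) * Polynomial.X) (fun _ => mul_comm _ _)
  have hΛC : ∀ r, Λ (Polynomial.C r) = Polynomial.C (φ (ρ r)) := by
    intro r
    change Polynomial.eval₂ _ _ (Polynomial.C r) = _
    rw [Polynomial.eval₂_C]
    rfl
  have hΛX : Λ Polynomial.X = Polynomial.C a + Polynomial.C (a' - a) * Polynomial.X := by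
    change Polynomial.eval₂ _ _ Polynomial.X = _
    rw [Polynomial.eval₂_X]
  have hΛev : ∀ (c₀ : ℂ) (l₀ : Localization.Away g →ₐ[ℂ] ℂ),
      (∀ r, l₀ (algebraMap (Polynomial R) (Localization.Away g) (Polynomial.C r)) = φ (ρ r)) →
      l₀ (algebraMap (Polynomial R) (Localization.Away g) Polynomial.X) = a + (a' - a) * c₀ →
      ∀ p, (Λ p).eval c₀ = l₀ (algebraMap (Polynomial R) (Localization.Away g) p) := by
    intro c₀ l₀ h1 h2 p
    induction p using Polynomial.induction_on' with
    | add p q hp hq => rw [map_add, Polynomial.eval_add, hp, hq, map_add, map_add]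
    | monomial n r =>
      rw [← Polynomial.C_mul_X_pow_eq_monomial, map_mul, map_pow, hΛC, hΛX, map_mul, map_pow,
        map_mul, map_pow, h1, h2]
      simp
  obtain ⟨θ, hθ⟩ := line_gen l l' Λ (hΛev 0 l hlc (by rw [← ha]; ring))
    (hΛev 1 l' hlc' (by rw [← ha']; ring))
  obtain ⟨M, _, _, i, Θ, hM, hi, hΘ⟩ := exists_ext_field (FixedPoints.subalgebra ℂ A H)
    (θ.comp j')
  obtain ⟨t, ht⟩ : ∃ t : M, t = i (algebraMap (Polynomial ℂ) F1 Polynomial.X) := ⟨_, rfl⟩
  have httr : Transcendental ℂ t := by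
    rw [transcendental_iff]
    intro p hp
    have h1 : Polynomial.aeval t p = i (algebraMap (Polynomial ℂ) F1 p) := by
      have h2 : (i.comp (Algebra.algHom ℂ (Polynomial ℂ) F1)) = Polynomial.aeval t := by
        apply Polynomial.algHom_ext
        rw [Polynomial.aeval_X, ht]
        rfl
      rw [← h2]
      rfl
    rw [h1, map_eq_zero_iff i hi,
      map_eq_zero_iff _ (IsFractionRing.injective (Polynomial ℂ) F1)] at hp
    exact hp
  have ht0 : t ≠ 0 := fun h => httr (by rw [h]; exact isAlgebraic_zero)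
  have ht1 : t - 1 ≠ 0 := fun h => httr (by
    rw [sub_eq_zero.1 h]
    exact isAlgebraic_one)
  obtain ⟨u, hu⟩ : ∃ u : M, u = t / (t - 1) := ⟨_, rfl⟩
  have hu1 : u - 1 = (t - 1)⁻¹ := by
    rw [hu]
    field_simp
    ring
  have hu1' : u - 1 ≠ 0 := by
    rw [hu1]
    exact inv_ne_zero ht1
  have htu : t = u * (u - 1)⁻¹ := by
    rw [hu1, inv_inv, hu]
    field_simp
  have hutr : Transcendental ℂ u := by
    intro h1
    apply httr
    rw [htu]
    exact h1.mul (h1.sub isAlgebraic_one).inv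
  have hkey := hθ M i
  refine ⟨M, inferInstance, inferInstance, u, Θ, hM, hutr, ?_, ?_⟩
  · intro V hC huV
    have h1 : u - 1 ∉ V.nonunits := by
      intro h2
      have h3 := V.nonunits.sub_mem huV h2
      rw [sub_sub_cancel] at h3
      exact one_notMem_nonunits V h3
    have htV : t ∈ V.nonunits := by
      rw [htu, mul_comm]
      exact nonunits_mul (inv_mem_of_notMem_nonunits h1) huV
    have h2 := (hkey V hC t ht).1 htV
    obtain ⟨ψ, hψ, hψB⟩ := exists_res_of_integral hC Θ (FixedPoints.subalgebra ℂ A H)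
      (l.comp j') (fun b => by
        rw [hΘ]
        exact h2 (j' b))
    obtain ⟨σ, hσ⟩ := exists_conj (H := H) φ ψ (fun a ha => by
      have h3 := hψB ⟨a, ha⟩
      change ψ a = l (j' ⟨a, ha⟩) at h3
      rw [h3, hl]
      rfl)
    refine ⟨σ, fun a => ?_⟩
    rw [← hσ]
    exact hψ a
  · intro V hC huV
    have hu0 : u ≠ 0 := fun h => hutr (by rw [h]; exact isAlgebraic_zero)
    have h1 : 1 - u⁻¹ ∉ V.nonunits := by
      intro h2
      have h3 := V.nonunits.add_mem h2 huV
      rw [sub_add_cancel] at h3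
      exact one_notMem_nonunits V h3
    have htV : t - 1 ∈ V.nonunits := by
      have h2 : t - 1 = (1 - u⁻¹)⁻¹ * u⁻¹ := by
        have h3 : 1 - u⁻¹ = (u - 1) * u⁻¹ := by
          field_simp
        rw [h3, htu]
        field_simp
        ring
      rw [h2]
      exact nonunits_mul (inv_mem_of_notMem_nonunits h1) huV
    have h2 := (hkey V hC t ht).2 htV
    obtain ⟨ψ, hψ, hψB⟩ := exists_res_of_integral hC Θ (FixedPoints.subalgebra ℂ A H)
      (l'.comp j') (fun b => by
        rw [hΘ]
        exact h2 (j' b))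
    obtain ⟨σ, hσ⟩ := exists_conj (H := H) φ' ψ (fun a ha => by
      have h3 := hψB ⟨a, ha⟩
      change ψ a = l' (j' ⟨a, ha⟩) at h3
      rw [h3, hl']
      rfl)
    refine ⟨σ, fun a => ?_⟩
    rw [← hσ]
    exact hψ a

end Pool.Agent.J4H13.RL
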