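import Pool.Agent.J4H13.RL.Conn
import Pool.Agent.J4H13.BC.Machine

/-!
# The machine for correspondences which factor through curves
-/

set_option autoImplicit false

open MvPolynomial

namespace Pool.Agent.J4H13.RL

open Pool.Agent.Helper397.HK Pool.Agent.J4H13.BC

/-- **Orbits.** The class of the orbit of a general point under a group with a unirational quotient
does not depend on the point. -/
theorem orbit_sum_rel {A H : Type} [CommRing A] [IsDomain A] [Algebra ℂ A] [Algebra.FiniteType ℂ A]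
    [Group H] [Fintype H] [MulSemiringAction H A] [SMulCommClass H ℂ A]
    {R : Type} [CommRing R] [IsDomain R] [Algebra ℂ R] [Algebra.FiniteType ℂ R]
    (j : FixedPoints.subalgebra ℂ A H →ₐ[ℂ] FractionRing (Polynomial R))
    (hj : Function.Injective j) (ρ : R →ₐ[ℂ] FixedPoints.subalgebra ℂ A H)
    (hρ : ∀ r, j (ρ r) = algebraMap (Polynomial R) _ (Polynomial.C r)) :
    ∃ h : A, h ≠ 0 ∧ ∀ {N : ℕ} {Y : ProjVar N} {η : Fin (N + 1) → A}, Y.OnCone η →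
      ∀ φ φ' : A →ₐ[ℂ] ℂ, φ h ≠ 0 → φ' h ≠ 0 → (∀ r, φ (ρ r) = φ' (ρ r)) →
      (∀ σ : H, (fun i => act φ σ (η i)) ∈ Y.Pts ℂ) →
      (∀ σ : H, (fun i => act φ' σ (η i)) ∈ Y.Pts ℂ) →
      ∑ σ : H, hc Y η (act φ σ) = ∑ σ : H, hc Y η (act φ' σ) := by
  obtain ⟨h, hh, -, hconn⟩ := exists_conn_rel j hj ρ hρ
  refine ⟨h, hh, ?_⟩
  intro N Y η hη φ φ' hφ hφ' hφφ' hp hp'
  obtain ⟨M, _, _, u, Θ, hM, hu, h0, h1⟩ := hconn φ φ' hφ hφ' hφφ'
  have key : ∀ (φ : A →ₐ[ℂ] ℂ) (V : ValuationSubring M),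
      (∀ σ : H, (fun i => act φ σ (η i)) ∈ Y.Pts ℂ) →
      (∃ σ : H, ∀ a, Θ a - algebraMap ℂ M (φ (σ • a)) ∈ V.nonunits) →
      ∃ (φ₁ : H → A →ₐ[ℂ] ℂ) (c : H → CH0 Y),
        (∀ k, ResAt V (Θ.comp (MulSemiringAction.toAlgHom ℂ A k)) (φ₁ k)) ∧
        (∀ k, HasCls η (φ₁ k) (c k)) ∧ ∑ k, c k = ∑ σ : H, hc Y η (act φ σ) := by
    rintro φ V hp ⟨σ₀, hσ₀⟩
    refine ⟨fun k => act φ (σ₀ * k), fun k => hc Y η (act φ (σ₀ * k)), ?_, ?_, ?_⟩
    · intro k a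
      have h2 := hσ₀ (k • a)
      rw [smul_smul] at h2
      exact h2
    · intro k
      exact hasCls_hc (hp (σ₀ * k))
    · exact Fintype.sum_equiv (Equiv.mulLeft σ₀) _ _ (fun _ => rfl)
  refine relation hη hM hu (fun σ : H => Θ.comp (MulSemiringAction.toAlgHom ℂ A σ)) _ _ ?_ ?_
  · intro V hC hV
    exact key φ V hp (h0 V hC hV)
  · intro V hC hV
    exact key φ' V hp' (h1 V hC hV)


/-- The quotient by `H` is unirational, or dominated by a family of rational curves over a curve with functions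
in the set `E`. -/
def RelUni {K : Type} [Field K] [Algebra ℂ K] {G : Type} [Group G] [MulSemiringAction G K]
    [SMulCommClass G ℂ K] (H : Subgroup G) (E : Set K) : Prop :=
  (∃ (m : ℕ) (j : FixedPoints.subalgebra ℂ K H →ₐ[ℂ] FractionRing (PR m)),
      Function.Injective j) ∨
  ∃ (R : Subalgebra ℂ K) (ρ : R →ₐ[ℂ] FixedPoints.subalgebra ℂ K H)
    (j : FixedPoints.subalgebra ℂ K H →ₐ[ℂ] FractionRing (Polynomial R)), R.FG ∧
    (∀ r : R, (r : K) ∈ E) ∧ (∀ r : R, ((ρ r : FixedPoints.subalgebra ℂ K H) : K) = r) ∧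
    Function.Injective j ∧ ∀ r : R, j (ρ r) = algebraMap (Polynomial R) _ (Polynomial.C r)

open scoped Classical in
/-- **The machine for correspondences.** -/
theorem machine_rel {K : Type} [Field K] [Algebra ℂ K] (G : Type) [Group G] [Fintype G]
    [MulSemiringAction G K] [SMulCommClass G ℂ K] (Γ : G → ℚ) {ι : Type} [Fintype ι]
    (H : ι → Subgroup G)
    (c : ι → ℚ) (hcoef : ∀ σ : G, ∑ i, (if σ ∈ H i then c i else 0) = Γ σ)
    (E : ι → Set K) (huni : ∀ i, RelUni (H i) (E i)) {N : ℕ} (ξ : Fin (N + 1) → K) :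
    ∃ (B : Subalgebra ℂ K) (hB : ∀ (σ : G) i, σ • ξ i ∈ B), B.FG ∧
      ∀ (Y : ProjVar N), Y.OnCone ξ → ∀ (φ φ' : B →ₐ[ℂ] ℂ) (p p' : G → Y.Pts ℂ),
        (∀ i, ∀ b : B, (b : K) ∈ E i → φ b = φ' b) →
        (∀ σ i, (p σ).1 i = φ ⟨σ • ξ i, hB σ i⟩) → (∀ σ i, (p' σ).1 i = φ' ⟨σ • ξ i, hB σ i⟩) →
        ∑ σ, Γ σ • cls (p σ) = ∑ σ, Γ σ • cls (p' σ) := by
  -- the algebra
  have hgens : ∀ i, ∃ s : Finset K, (∃ (m : ℕ) (j : FixedPoints.subalgebra ℂ K (H i) →ₐ[ℂ]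
      FractionRing (PR m)), Function.Injective j) ∨
      ∃ (R : Subalgebra ℂ K) (ρ : R →ₐ[ℂ] FixedPoints.subalgebra ℂ K (H i))
        (j : FixedPoints.subalgebra ℂ K (H i) →ₐ[ℂ] FractionRing (Polynomial R)),
        Algebra.adjoin ℂ (s : Set K) = R ∧
        (∀ r : R, (r : K) ∈ E i) ∧
        (∀ r : R, ((ρ r : FixedPoints.subalgebra ℂ K (H i)) : K) = r) ∧
        Function.Injective j ∧ ∀ r : R, j (ρ r) = algebraMap (Polynomial R) _ (Polynomial.C r) := by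
    intro i
    rcases huni i with h | ⟨R, ρ, j, ⟨s, hs⟩, h⟩
    · exact ⟨∅, Or.inl h⟩
    · exact ⟨s, Or.inr ⟨R, ρ, j, hs, h⟩⟩
  choose s hs using hgens
  obtain ⟨Z, hZ⟩ : ∃ Z : Set K, Z = Set.range ξ ∪ ⋃ i, (s i : Set K) := ⟨_, rfl⟩
  have hZfin : Z.Finite := by
    rw [hZ]
    exact (Set.finite_range _).union (Set.finite_iUnion fun i => (s i).finite_toSet)
  obtain ⟨A, hAdef⟩ : ∃ A : Subalgebra ℂ K,
    A = Algebra.adjoin ℂ (⋃ σ : G, (fun z => σ • z) '' Z) := ⟨_, rfl⟩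
  have hAst : ∀ (σ : G) (a : K), a ∈ A → σ • a ∈ A := by
    intro σ a ha
    have h1 : A ≤ A.comap (MulSemiringAction.toAlgHom ℂ K σ) := by
      conv_lhs => rw [hAdef]
      apply Algebra.adjoin_le
      intro x hx
      obtain ⟨τ, z, hz, rfl⟩ := Set.mem_iUnion.1 hx
      change σ • (τ • z) ∈ A
      rw [smul_smul, hAdef]
      exact Algebra.subset_adjoin (Set.mem_iUnion.2 ⟨σ * τ, z, hz, rfl⟩)
    exact h1 ha
  have hAZ : ∀ (σ : G), ∀ z ∈ Z, σ • z ∈ A := by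
    intro σ z hz
    rw [hAdef]
    exact Algebra.subset_adjoin (Set.mem_iUnion.2 ⟨σ, z, hz, rfl⟩)
  have hAσ : ∀ (σ : G) i, σ • ξ i ∈ A := by
    intro σ i
    refine hAZ σ _ ?_
    rw [hZ]
    exact Or.inl ⟨i, rfl⟩
  have hAs : ∀ i, Algebra.adjoin ℂ (s i : Set K) ≤ A := by
    intro i
    apply Algebra.adjoin_le
    intro z hz
    have h1 := hAZ 1 z (by
      rw [hZ]
      exact Or.inr (Set.mem_iUnion.2 ⟨i, hz⟩))
    rwa [one_smul] at h1
  have hAξ : ∀ i, ξ i ∈ A := by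
    intro i
    have := hAσ 1 i
    rwa [one_smul] at this
  have hAfg : A.FG := by
    rw [hAdef]
    exact Subalgebra.fg_def.2 ⟨_, Set.finite_iUnion fun σ => hZfin.image _, rfl⟩
  have hAft : Algebra.FiniteType ℂ A := by
    rw [← Subalgebra.fg_iff_finiteType]
    exact hAfg
  let _ : MulSemiringAction G A := stableAction A hAst
  have hcomm : SMulCommClass G ℂ A := ⟨fun σ z a => Subtype.ext (smul_comm σ z a.1)⟩
  let η : Fin (N + 1) → A := fun i => ⟨ξ i, hAξ i⟩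
  -- the orbits
  have horb : ∀ i : ι, ∃ h : A, h ≠ 0 ∧ ∀ (Y : ProjVar N), Y.OnCone η → ∀ φ φ' : A →ₐ[ℂ] ℂ,
      φ h ≠ 0 → φ' h ≠ 0 → (∀ a : A, (a : K) ∈ E i → φ a = φ' a) →
      (∀ σ : G, (fun i => act φ σ (η i)) ∈ Y.Pts ℂ) →
      (∀ σ : G, (fun i => act φ' σ (η i)) ∈ Y.Pts ℂ) →
      ∑ σ : H i, hc Y η (act φ (σ : G)) = ∑ σ : H i, hc Y η (act φ' (σ : G)) := by
    intro i
    let ε : FixedPoints.subalgebra ℂ A (H i) →ₐ[ℂ] FixedPoints.subalgebra ℂ K (H i) :=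
      (A.val.comp (FixedPoints.subalgebra ℂ A (H i)).val).codRestrict _ (by
        rintro ⟨a, ha⟩ σ
        exact congrArg Subtype.val (ha σ))
    have hε : Function.Injective ε := by
      intro a b hab
      have h1 : (a.1.1 : K) = b.1.1 :=
        congrArg (fun z : FixedPoints.subalgebra ℂ K (H i) => (z : K)) hab
      exact Subtype.ext (Subtype.ext h1)
    rcases hs i with ⟨m, j, hj⟩ | ⟨R, ρ, j, hsR, hRE, hρR, hj, hjρ⟩
    · obtain ⟨h, hh, hor⟩ := orbit_sum (A := A) (H := H i) (j.comp ε) (hj.comp hε)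
      refine ⟨h, hh, ?_⟩
      intro Y hη φ φ' hφ hφ' _ hp hp'
      exact hor hη φ φ' hφ hφ' (fun σ => hp σ) (fun σ => hp' σ)
    · have hRA : ∀ r : R, (r : K) ∈ A := by
        intro r
        apply hAs i
        rw [hsR]
        exact r.2
      have hRfg : Algebra.FiniteType ℂ R := by
        rw [← Subalgebra.fg_iff_finiteType, ← hsR]
        exact Subalgebra.fg_adjoin_finset _
      let ρ' : R →ₐ[ℂ] FixedPoints.subalgebra ℂ A (H i) :=
        ((R.val.codRestrict A hRA)).codRestrict _ (by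
          intro r σ
          apply Subtype.ext
          change (σ : G) • (r : K) = r
          have h1 := (ρ r).2 σ
          rw [hρR] at h1
          exact h1)
      have hερ : ∀ r, ε (ρ' r) = ρ r := by
        intro r
        apply Subtype.ext
        rw [hρR]
        rfl
      obtain ⟨h, hh, hor⟩ := orbit_sum_rel (A := A) (H := H i) (j.comp ε) (hj.comp hε) ρ'
        (fun r => by
          change j (ε (ρ' r)) = _
          rw [hερ, hjρ])
      refine ⟨h, hh, ?_⟩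
      intro Y hη φ φ' hφ hφ' hE hp hp'
      exact hor hη φ φ' hφ hφ' (fun r => hE _ (hRE r)) (fun σ => hp σ) (fun σ => hp' σ)
  choose h hh hor using horb
  obtain ⟨h₀, hh₀⟩ : ∃ h₀ : A, h₀ = ∏ i, h i := ⟨_, rfl⟩
  have hh₀0 : h₀ ≠ 0 := by
    rw [hh₀]
    exact Finset.prod_ne_zero_iff.2 fun i _ => hh i
  have hgoodh : ∀ φ : A →ₐ[ℂ] ℂ, φ h₀ ≠ 0 → ∀ i, φ (h i) ≠ 0 := by
    intro φ hφ i h1
    apply hφ
    rw [hh₀, map_prod]
    exact Finset.prod_eq_zero (Finset.mem_univ i) h1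
  have hsum : ∀ (Y : ProjVar N) (φ : A →ₐ[ℂ] ℂ), ∑ σ, Γ σ • hc Y η (act φ σ) =
      ∑ i, c i • ∑ σ : H i, hc Y η (act φ (σ : G)) := by
    intro Y φ
    have h1 : ∀ i, ∑ σ : H i, hc Y η (act φ (σ : G)) =
        ∑ σ : G, if σ ∈ H i then hc Y η (act φ σ) else 0 := by
      intro i
      rw [← Finset.sum_filter]
      exact (Finset.sum_subtype (Finset.univ.filter fun σ => σ ∈ H i) (p := fun σ => σ ∈ H i)
        (fun x => by simp) (fun σ => hc Y η (act φ σ))).symm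
    simp only [h1, Finset.smul_sum]
    rw [Finset.sum_comm]
    refine Finset.sum_congr rfl fun σ _ => ?_
    rw [← hcoef σ, Finset.sum_smul]
    refine Finset.sum_congr rfl fun i _ => ?_
    by_cases hi : σ ∈ H i
    · rw [if_pos hi, if_pos hi]
    · rw [if_neg hi, if_neg hi, smul_zero, zero_smul]
  -- the larger algebra
  obtain ⟨B, hBdef⟩ : ∃ B : Subalgebra ℂ K, B = A ⊔ Algebra.adjoin ℂ {((h₀ : K))⁻¹} := ⟨_, rfl⟩
  have hAB : A ≤ B := by
    rw [hBdef]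
    exact le_sup_left
  have hinv : ((h₀ : K))⁻¹ ∈ B := by
    rw [hBdef]
    exact (le_sup_right : Algebra.adjoin ℂ {((h₀ : K))⁻¹} ≤ _)
      (Algebra.subset_adjoin (Set.mem_singleton _))
  refine ⟨B, fun σ i => hAB (hAσ σ i), ?_, ?_⟩
  · rw [hBdef]
    exact hAfg.sup (Subalgebra.fg_def.2 ⟨_, Set.finite_singleton _, rfl⟩)
  intro Y hξY φ φ' p p' hEφ hp hp'
  have hη : Y.OnCone η := ProjVar.OnCone.of_injective A.val Subtype.val_injective hξY
  have hres : ∀ ψ : B →ₐ[ℂ] ℂ, ψ (Subalgebra.inclusion hAB h₀) ≠ 0 := by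
    intro ψ hψ
    have h1 : Subalgebra.inclusion hAB h₀ * ⟨_, hinv⟩ = 1 := by
      apply Subtype.ext
      change (h₀ : K) * ((h₀ : K))⁻¹ = 1
      exact mul_inv_cancel₀ fun h2 => hh₀0 (Subtype.ext h2)
    have h2 := congrArg ψ h1
    rw [map_mul, hψ, zero_mul, map_one] at h2
    exact zero_ne_one h2
  have hpt : ∀ (ψ : B →ₐ[ℂ] ℂ) (q : G → Y.Pts ℂ),
      (∀ σ i, (q σ).1 i = ψ ⟨σ • ξ i, hAB (hAσ σ i)⟩) → ∀ σ,
      (q σ).1 = fun i => act (ψ.comp (Subalgebra.inclusion hAB)) σ (η i) := by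
    intro ψ q hq σ
    funext i
    rw [hq]
    rfl
  have hval : ∀ (ψ : B →ₐ[ℂ] ℂ) (q : G → Y.Pts ℂ),
      (∀ σ i, (q σ).1 i = ψ ⟨σ • ξ i, hAB (hAσ σ i)⟩) → ∑ σ, Γ σ • cls (q σ) =
      ∑ σ, Γ σ • hc Y η (act (ψ.comp (Subalgebra.inclusion hAB)) σ) := by
    intro ψ q hq
    refine Finset.sum_congr rfl fun σ _ => ?_
    have h1 := hpt ψ q hq σ
    have h2 : (fun i => act (ψ.comp (Subalgebra.inclusion hAB)) σ (η i)) ∈ Y.Pts ℂ := by
      rw [← h1]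
      exact (q σ).2
    obtain ⟨h3, h4⟩ := hasCls_hc h2
    rw [← h4]
    congr 2
    exact Subtype.ext h1
  rw [hval φ p hp, hval φ' p' hp', hsum, hsum]
  refine Finset.sum_congr rfl fun i _ => ?_
  congr 1
  refine hor i Y hη _ _ (hgoodh _ (hres φ) i) (hgoodh _ (hres φ') i)
    (fun a ha => hEφ i (Subalgebra.inclusion hAB a) ha) ?_ ?_
  · intro σ
    rw [← hpt φ p hp σ]
    exact (p σ).2
  · intro σ
    rw [← hpt φ' p' hp' σ]
    exact (p' σ).2

end Pool.Agent.J4H13.RL
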