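import Pool.Agent.J4H13.BC.Kummer
import Pool.Agent.J4H13.RL.Machine

/-!
# The machine for the group ring of extensions generated by square roots, with curves
-/

set_option autoImplicit false

open MvPolynomial

namespace Pool.Agent.J4H13.RL

open Pool.Agent.Helper397.HK Pool.Agent.J4H13.BC

/-- The field `L` contains `k₀` and `z` and is dominated by a family of rational curves over a curve with functions
in `E`, which are in `k₀(z)`. -/
def RelField {K : Type} [Field K] [Algebra ℂ K] (k₀ : IntermediateField ℂ K) (z : K)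
    (E : IntermediateField ℂ K) : Prop :=
  ∃ (R : Subalgebra ℂ K) (L : IntermediateField ℂ K) (hRL : ∀ r : R, (r : K) ∈ L)
    (j : L →ₐ[ℂ] FractionRing (Polynomial R)), k₀ ≤ L ∧ z ∈ L ∧ R.FG ∧ (∀ r : R, (r : K) ∈ E) ∧
    (∀ r : R, (r : K) ∈ IntermediateField.adjoin k₀ {z}) ∧
    ∀ r : R, j ⟨r, hRL r⟩ = algebraMap (Polynomial R) _ (Polynomial.C r)

section

variable {K : Type} [Field K] [Algebra ℂ K] {k₀ : IntermediateField ℂ K} {k : ℕ} {w : Fin k → K}

/-- **The machine for square roots.** -/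
theorem kummer_rel (hw : ∀ i, w i ^ 2 ∈ k₀) (hw0 : ∀ i, w i ≠ 0)
    (hgen : IntermediateField.adjoin k₀ (Set.range w) = ⊤) [Fintype (K ≃ₐ[k₀] K)]
    (Γ : (K ≃ₐ[k₀] K) → ℚ)
    (hk₀ : ∃ m : ℕ, Nonempty (k₀ →ₐ[ℂ] FractionRing (PR m)))
    (𝓔 : Finset (IntermediateField ℂ K))
    (huni : ∀ S : Finset (Fin k), ∑ σ, (Γ σ : K) * σ (∏ i ∈ S, w i) ≠ 0 →
      (∃ L : IntermediateField ℂ K, k₀ ≤ L ∧ ∏ i ∈ S, w i ∈ L ∧
      ∃ m : ℕ, Nonempty (L →ₐ[ℂ] FractionRing (PR m))) ∨ ∃ E ∈ 𝓔, RelField k₀ (∏ i ∈ S, w i) E)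
    {N : ℕ} (ξ : Fin (N + 1) → K) :
    ∃ (B : Subalgebra ℂ K) (hB : ∀ (σ : K ≃ₐ[k₀] K) i, σ (ξ i) ∈ B), B.FG ∧
      ∀ (Y : ProjVar N), Y.OnCone ξ → ∀ (φ φ' : B →ₐ[ℂ] ℂ) (p p' : (K ≃ₐ[k₀] K) → Y.Pts ℂ),
        (∀ E ∈ 𝓔, ∀ b : B, (b : K) ∈ E → φ b = φ' b) →
        (∀ σ i, (p σ).1 i = φ ⟨σ (ξ i), hB σ i⟩) → (∀ σ i, (p' σ).1 i = φ' ⟨σ (ξ i), hB σ i⟩) →
        ∑ σ, Γ σ • cls (p σ) = ∑ σ, Γ σ • cls (p' σ) := by
  classical
  obtain ⟨hfin, hgal⟩ := isGalois_sqrt hw hgen
  let G := K ≃ₐ[k₀] K
  have hcomm : SMulCommClass G ℂ K := by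
    refine ⟨fun σ c x => ?_⟩
    change σ (c • x) = c • σ x
    rw [Algebra.smul_def, Algebra.smul_def, map_mul]
    congr 1
    exact σ.commutes (algebraMap ℂ k₀ c)
  -- the signs
  have hsign : ∀ (σ : G) (i : Fin k), ∃ e : ℤ, (e = 1 ∨ e = -1) ∧ σ (w i) = (e : K) * w i := by
    intro σ i
    have h1 : σ (w i) ^ 2 = w i ^ 2 := by
      rw [← map_pow]
      exact σ.commutes ⟨w i ^ 2, hw i⟩
    rcases sq_eq_sq_iff_eq_or_eq_neg.1 h1 with h2 | h2
    · exact ⟨1, Or.inl rfl, by rw [h2, Int.cast_one, one_mul]⟩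
    · exact ⟨-1, Or.inr rfl, by rw [h2]; push_cast; ring⟩
  choose e he hew using hsign
  let wS : Finset (Fin k) → K := fun S => ∏ i ∈ S, w i
  have hwS0 : ∀ S, wS S ≠ 0 := fun S => Finset.prod_ne_zero_iff.2 fun i _ => hw0 i
  have hσS : ∀ (σ : G) (S), σ (wS S) = ((∏ i ∈ S, e σ i : ℤ) : K) * wS S := by
    intro σ S
    change σ (∏ i ∈ S, w i) = _
    rw [map_prod, Int.cast_prod, ← Finset.prod_mul_distrib]
    exact Finset.prod_congr rfl fun i _ => hew σ i
  have heS : ∀ (σ : G) (S : Finset (Fin k)), ∏ i ∈ S, e σ i = 1 ∨ ∏ i ∈ S, e σ i = -1 := by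
    intro σ S
    induction S using Finset.induction_on with
    | empty => left; rw [Finset.prod_empty]
    | insert a S ha ih =>
      rw [Finset.prod_insert ha]
      rcases he σ a with h1 | h1 <;> rcases ih with h2 | h2 <;> rw [h1, h2] <;> simp
  have hcharK : CharZero K := charZero_of_C K
  let H : Finset (Fin k) → Subgroup G := fun S => MulAction.stabilizer G (wS S)
  have hmem : ∀ (σ : G) S, σ ∈ H S ↔ ∏ i ∈ S, e σ i = 1 := by
    intro σ S
    rw [MulAction.mem_stabilizer_iff]
    change σ (wS S) = wS S ↔ _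
    rw [hσS]
    constructor
    · intro h1
      rcases heS σ S with h2 | h2
      · exact h2
      · rw [h2] at h1
        push_cast at h1
        have h3 : (2 : K) * wS S = 0 := by linear_combination -h1
        rcases mul_eq_zero.1 h3 with h4 | h4
        · exact absurd h4 two_ne_zero
        · exact absurd h4 (hwS0 S)
    · intro h1
      rw [h1, Int.cast_one, one_mul]
  -- the products of signs
  have hprod1 : ∀ σ : G, ∏ i, (1 + (e σ i : ℚ)) = if σ = 1 then 2 ^ k else 0 := by
    intro σ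
    by_cases hσ : σ = 1
    · rw [if_pos hσ]
      have h7 : ∀ i, e σ i = 1 := by
        intro i
        rcases he σ i with h8 | h8
        · exact h8
        · exfalso
          have h9 := hew σ i
          rw [h8, hσ] at h9
          have h10 : w i = -w i := by
            have : (1 : G) (w i) = w i := rfl
            rw [this] at h9
            push_cast at h9
            linear_combination h9
          have h11 : (2 : K) * w i = 0 := by linear_combination h10
          rcases mul_eq_zero.1 h11 with h12 | h12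
          · exact absurd h12 two_ne_zero
          · exact absurd h12 (hw0 i)
      rw [Finset.prod_congr rfl fun i _ => by rw [h7 i]]
      rw [Finset.prod_const, Finset.card_univ, Fintype.card_fin]
      norm_num
    · rw [if_neg hσ]
      obtain ⟨i, hi⟩ : ∃ i, e σ i ≠ 1 := by
        by_contra hcon
        push Not at hcon
        apply hσ
        have h7 : ∀ x : K, σ x = x := by
          have h8 : IntermediateField.adjoin k₀ (Set.range w) ≤
              IntermediateField.fixedField (Subgroup.zpowers σ) := by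
            rw [IntermediateField.adjoin_le_iff]
            rintro _ ⟨i, rfl⟩
            rw [SetLike.mem_coe, IntermediateField.mem_fixedField_iff]
            intro τ hτ
            have h9 : σ (w i) = w i := by rw [hew, hcon i, Int.cast_one, one_mul]
            have h10 : Subgroup.zpowers σ ≤ MulAction.stabilizer G (w i) := by
              rw [Subgroup.zpowers_le, MulAction.mem_stabilizer_iff]
              exact h9
            exact h10 hτ
          intro x
          have h11 : x ∈ IntermediateField.fixedField (Subgroup.zpowers σ) := by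
            apply h8
            rw [hgen]
            trivial
          exact (IntermediateField.mem_fixedField_iff _ _).1 h11 σ (Subgroup.mem_zpowers σ)
        ext x
        exact h7 x
      have h7 : e σ i = -1 := (he σ i).resolve_left hi
      apply Finset.prod_eq_zero (Finset.mem_univ i)
      rw [h7]
      norm_num
  have hmul : ∀ (σ τ : G) i, e (σ * τ) i = e σ i * e τ i := by
    intro σ τ i
    have h1 : (σ * τ) (w i) = σ (τ (w i)) := rfl
    have h2 : σ ((e τ i : K) * w i) = (e τ i : K) * σ (w i) := by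
      rw [map_mul, map_intCast]
    rw [hew, hew τ, h2, hew σ, ← mul_assoc] at h1
    have h3 := mul_right_cancel₀ (hw0 i) h1
    have h4 : ((e (σ * τ) i : ℤ) : K) = ((e σ i * e τ i : ℤ) : K) := by
      rw [h3]
      push_cast
      ring
    exact Int.cast_injective h4
  -- the coefficients
  let γ : Finset (Fin k) → ℚ := fun S => ∑ σ, Γ σ * ∏ i ∈ S, (e σ i : ℚ)
  have hγ : ∀ S, γ S ≠ 0 → ∑ σ, (Γ σ : K) * σ (wS S) ≠ 0 := by
    intro S hS h1
    have h2 : ((γ S : ℚ) : K) * wS S = 0 := by
      rw [← h1]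
      simp only [γ]
      rw [Rat.cast_sum, Finset.sum_mul]
      refine Finset.sum_congr rfl fun σ _ => ?_
      rw [hσS]
      push_cast
      ring
    rcases mul_eq_zero.1 h2 with h3 | h3
    · exact hS (by exact_mod_cast h3)
    · exact hwS0 S h3
  -- the expansion
  have hΓ : ∀ σ : G, ∑ S : Finset (Fin k), γ S * ∏ i ∈ S, (e σ i : ℚ) = 2 ^ k * Γ σ := by
    intro σ
    have h1 : ∀ S : Finset (Fin k), γ S * ∏ i ∈ S, (e σ i : ℚ) =
        ∑ τ : G, Γ τ * ∏ i ∈ S, (e (τ * σ) i : ℚ) := by
      intro S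
      simp only [γ]
      rw [Finset.sum_mul]
      refine Finset.sum_congr rfl fun τ _ => ?_
      rw [mul_assoc, ← Finset.prod_mul_distrib]
      congr 1
      refine Finset.prod_congr rfl fun i _ => ?_
      rw [hmul]
      push_cast
      ring
    simp only [h1]
    rw [Finset.sum_comm]
    have h2 : ∀ τ : G, ∑ S : Finset (Fin k), Γ τ * ∏ i ∈ S, (e (τ * σ) i : ℚ) =
        if τ * σ = 1 then 2 ^ k * Γ τ else 0 := by
      intro τ
      rw [← Finset.mul_sum]
      have h3 : ∑ S : Finset (Fin k), ∏ i ∈ S, (e (τ * σ) i : ℚ) =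
          ∏ i, (1 + (e (τ * σ) i : ℚ)) := by
        rw [Finset.prod_one_add, Finset.powerset_univ]
      rw [h3, hprod1]
      by_cases h4 : τ * σ = 1
      · rw [if_pos h4, if_pos h4]
        ring
      · rw [if_neg h4, if_neg h4, mul_zero]
    rw [Finset.sum_congr rfl fun τ _ => h2 τ]
    have h3 : ∀ τ : G, (if τ * σ = 1 then 2 ^ k * Γ τ else 0) =
        if τ = σ then 2 ^ k * Γ τ else 0 := by
      intro τ
      have h4 : σ * σ = 1 := by
        have h5 : ∀ i, e (σ * σ) i = 1 := by
          intro i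
          rw [hmul]
          rcases he σ i with h6 | h6 <;> rw [h6] <;> norm_num
        by_contra h7
        have h8 := hprod1 (σ * σ)
        rw [if_neg h7, Finset.prod_congr rfl fun i _ => by rw [h5 i], Finset.prod_const] at h8
        norm_num at h8
      have h5 : τ * σ = 1 ↔ τ = σ := by
        constructor
        · intro h6
          rw [← mul_right_cancel_iff (a := σ), h6, h4]
        · rintro rfl
          exact h4
      by_cases h6 : τ = σ
      · rw [if_pos h6, if_pos (h5.2 h6)]
      · rw [if_neg h6, if_neg fun h7 => h6 (h5.1 h7)]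
    rw [Finset.sum_congr rfl fun τ _ => h3 τ, Finset.sum_ite_eq' Finset.univ σ,
      if_pos (Finset.mem_univ _)]
  -- the sum of the subgroups
  obtain ⟨T, hT⟩ : ∃ T : Finset (Finset (Fin k)), T = Finset.univ.filter fun S => γ S ≠ 0 :=
    ⟨_, rfl⟩
  let H' : Option T → Subgroup G := fun o => o.elim ⊤ (fun S => H S.1)
  let c : Option T → ℚ := fun o => o.elim (-((∑ S, γ S) / 2 ^ k)) (fun S => 2 * γ S.1 / 2 ^ k)
  have huni' : ∀ S : Finset (Fin k), (∃ L : IntermediateField ℂ K, k₀ ≤ L ∧ ∏ i ∈ S, w i ∈ L ∧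
      ∃ m : ℕ, Nonempty (L →ₐ[ℂ] FractionRing (PR m))) →
      ∃ (m : ℕ) (j : FixedPoints.subalgebra ℂ K (H S) →ₐ[ℂ] FractionRing (PR m)),
      Function.Injective j := by
    rintro S ⟨L, hkL, hSL, m, ⟨j⟩⟩
    have hle : ∀ x ∈ FixedPoints.subalgebra ℂ K (H S), x ∈ L := by
      intro x hx
      have h1 : x ∈ IntermediateField.fixedField
          (IntermediateField.fixingSubgroup (IntermediateField.adjoin k₀ {wS S})) := by
        rw [IntermediateField.mem_fixedField_iff]
        intro σ hσ
        have h2 : σ ∈ H S := by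
          rw [MulAction.mem_stabilizer_iff]
          exact (IntermediateField.mem_fixingSubgroup_iff _ _).1 hσ _
            (IntermediateField.mem_adjoin_simple_self k₀ _)
        exact hx ⟨σ, h2⟩
      rw [IsGalois.fixedField_fixingSubgroup] at h1
      have h3 : (IntermediateField.adjoin k₀ {wS S}).restrictScalars ℂ ≤ L := by
        intro z hz
        have h4 : IntermediateField.adjoin k₀ {wS S} ≤
            IntermediateField.extendScalars hkL := by
          rw [IntermediateField.adjoin_simple_le_iff]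
          exact hSL
        exact h4 hz
      exact h3 h1
    let ε : FixedPoints.subalgebra ℂ K (H S) →ₐ[ℂ] L :=
      Subalgebra.inclusion (S := FixedPoints.subalgebra ℂ K (H S)) (T := L.toSubalgebra) hle
    exact ⟨m, j.comp ε, j.injective.comp (Subalgebra.inclusion_injective hle)⟩

  have hrel' : ∀ (S : Finset (Fin k)) (E : IntermediateField ℂ K), RelField k₀ (wS S) E →
      RelUni (H S) (E : Set K) := by
    rintro S E ⟨R, L, hRL, j, hkL, hSL, hRfg, hRE, hRk, hj⟩
    have hle : ∀ x ∈ FixedPoints.subalgebra ℂ K (H S), x ∈ L := by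
      intro x hx
      have h1 : x ∈ IntermediateField.fixedField
          (IntermediateField.fixingSubgroup (IntermediateField.adjoin k₀ {wS S})) := by
        rw [IntermediateField.mem_fixedField_iff]
        intro σ hσ
        have h2 : σ ∈ H S := by
          rw [MulAction.mem_stabilizer_iff]
          exact (IntermediateField.mem_fixingSubgroup_iff _ _).1 hσ _
            (IntermediateField.mem_adjoin_simple_self k₀ _)
        exact hx ⟨σ, h2⟩
      rw [IsGalois.fixedField_fixingSubgroup] at h1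
      have h3 : (IntermediateField.adjoin k₀ {wS S}).restrictScalars ℂ ≤ L := by
        intro z hz
        have h4 : IntermediateField.adjoin k₀ {wS S} ≤
            IntermediateField.extendScalars hkL := by
          rw [IntermediateField.adjoin_simple_le_iff]
          exact hSL
        exact h4 hz
      exact h3 h1
    let ε : FixedPoints.subalgebra ℂ K (H S) →ₐ[ℂ] L :=
      Subalgebra.inclusion (S := FixedPoints.subalgebra ℂ K (H S)) (T := L.toSubalgebra) hle
    have hfixk : ∀ z ∈ IntermediateField.adjoin k₀ {wS S}, ∀ σ : H S, (σ : G) z = z := by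
      intro z hz σ
      have h4 : IntermediateField.adjoin k₀ {wS S} ≤
          IntermediateField.fixedField (Subgroup.zpowers (σ : G)) := by
        rw [IntermediateField.adjoin_simple_le_iff, IntermediateField.mem_fixedField_iff]
        intro τ hτ
        have h5 : Subgroup.zpowers (σ : G) ≤ MulAction.stabilizer G (wS S) := by
          rw [Subgroup.zpowers_le]
          exact σ.2
        exact h5 hτ
      exact (IntermediateField.mem_fixedField_iff _ _).1 (h4 hz) σ (Subgroup.mem_zpowers _)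
    let ρ : R →ₐ[ℂ] FixedPoints.subalgebra ℂ K (H S) :=
      R.val.codRestrict _ (by
        intro r σ
        exact hfixk _ (hRk r) σ)
    refine Or.inr ⟨R, ρ, j.comp ε, hRfg, hRE, fun r => rfl,
      j.injective.comp (Subalgebra.inclusion_injective hle), fun r => ?_⟩
    have h6 : ε (ρ r) = ⟨(r : K), hRL r⟩ := rfl
    change j (ε (ρ r)) = _
    rw [h6, hj]
  have hmemT : ∀ z, z ∈ T → γ z ≠ 0 := by
    intro z hz
    rw [hT, Finset.mem_filter] at hz
    exact hz.2
  have hF : ∀ S : T, ∃ F : Set K, (F = ∅ ∨ ∃ E ∈ 𝓔, F = (E : Set K)) ∧ RelUni (H S.1) F := by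
    intro S
    rcases huni S.1 (hγ S.1 (hmemT _ S.2)) with h | ⟨E, hE, h⟩
    · exact ⟨∅, Or.inl rfl, Or.inl (huni' S.1 h)⟩
    · exact ⟨E, Or.inr ⟨E, hE, rfl⟩, hrel' S.1 E h⟩
  choose F hF1 hF2 using hF
  suffices hsuf : ∃ (B : Subalgebra ℂ K) (hB : ∀ (σ : G) i, σ • ξ i ∈ B), B.FG ∧
      ∀ (Y : ProjVar N), Y.OnCone ξ → ∀ (φ φ' : B →ₐ[ℂ] ℂ) (p p' : G → Y.Pts ℂ),
        (∀ o : Option T, ∀ b : B, (b : K) ∈ (o.elim ∅ F : Set K) → φ b = φ' b) →
        (∀ σ i, (p σ).1 i = φ ⟨σ • ξ i, hB σ i⟩) → (∀ σ i, (p' σ).1 i = φ' ⟨σ • ξ i, hB σ i⟩) →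
        ∑ σ, Γ σ • cls (p σ) = ∑ σ, Γ σ • cls (p' σ) by
    obtain ⟨B, hB, hBfg, hmain⟩ := hsuf
    refine ⟨B, hB, hBfg, fun Y hY φ φ' p p' hE => hmain Y hY φ φ' p p' ?_⟩
    intro o b hb
    cases o with
    | none => exact absurd hb (Set.notMem_empty _)
    | some S =>
      change (b : K) ∈ F S at hb
      rcases hF1 S with h | ⟨E, hE', h⟩
      · rw [h] at hb
        exact absurd hb (Set.notMem_empty _)
      · rw [h] at hb
        exact hE E hE' b hb
  refine machine_rel G Γ H' c ?_ (fun o => o.elim ∅ F) ?_ ξ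
  · intro σ
    rw [Fintype.sum_option]
    have h1 : ∀ S : T, (if σ ∈ H' (some S) then c (some S) else 0) =
        (γ S.1 * (1 + ∏ i ∈ S.1, (e σ i : ℚ))) / 2 ^ k := by
      intro S
      have h2 : (∏ i ∈ S.1, (e σ i : ℚ)) = ((∏ i ∈ S.1, e σ i : ℤ) : ℚ) := by push_cast; rfl
      rw [h2]
      by_cases hS : σ ∈ H S.1
      · have hS' : σ ∈ H' (some S) := hS
        rw [if_pos hS', (hmem σ S.1).1 hS]
        simp only [c, Option.elim]
        push_cast
        ring
      · have hS' : σ ∉ H' (some S) := hS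
        have h3 : ∏ i ∈ S.1, e σ i = -1 := (heS σ S.1).resolve_left fun h => hS ((hmem σ S.1).2 h)
        rw [h3, if_neg hS']
        push_cast
        ring
    have htop : σ ∈ H' none := Subgroup.mem_top σ
    rw [if_pos htop, Finset.sum_congr rfl fun S _ => h1 S]
    have h4 : ∑ S : T, (γ S.1 * (1 + ∏ i ∈ S.1, (e σ i : ℚ))) / 2 ^ k =
        ∑ S, (γ S * (1 + ∏ i ∈ S, (e σ i : ℚ))) / 2 ^ k := by
      rw [Finset.sum_coe_sort T (fun S => (γ S * (1 + ∏ i ∈ S, (e σ i : ℚ))) / 2 ^ k), hT]
      apply Finset.sum_filter_of_ne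
      intro S _ hS h5
      apply hS
      rw [h5]
      ring
    rw [h4, ← Finset.sum_div]
    simp only [mul_add, mul_one]
    rw [Finset.sum_add_distrib, hΓ]
    have hk : (2 : ℚ) ^ k ≠ 0 := pow_ne_zero _ two_ne_zero
    simp only [c, Option.elim]
    field_simp
    ring
  · intro o
    cases o with
    | none =>
      obtain ⟨m, j, hj⟩ := huni' ∅ ⟨k₀, le_rfl, by rw [Finset.prod_empty]; exact one_mem _, hk₀⟩
      have hle : FixedPoints.subalgebra ℂ K (H' none) ≤ FixedPoints.subalgebra ℂ K (H ∅) := by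
        intro x hx σ
        exact hx ⟨σ.1, Subgroup.mem_top _⟩
      exact Or.inl ⟨m, j.comp (Subalgebra.inclusion hle),
        hj.comp (Subalgebra.inclusion_injective hle)⟩
    | some S => exact hF2 S

end

end Pool.Agent.J4H13.RL
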