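import Pool.Agent.J4H13.RL.Kummer
import Pool.Agent.J4H13.BD.MainB

/-!
# Double planes branched along the lines of a pencil
-/

set_option autoImplicit false

open FF

namespace Pool.Agent.J4H13.RL

open Pool.Agent.J4H13.BC Pool.Agent.J4H13.LA Pool.Agent.J4H13.BD Pool.Agent.W602.GT
  Pool.Agent.W603.LV Pool.Agent.Helper397.HK

variable {K : Type} [Field K] [Algebra ℂ K]

/-- `w` is a square root of a polynomial in the coordinate `t` of a pencil of lines, up to a factor in `ℂ(x, y)`. -/
def Pencil (x y w : K) : Prop :=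
  ∃ (t s v g : K) (P : Polynomial ℂ), t ∈ IntermediateField.adjoin ℂ {x, y} ∧
    x ∈ IntermediateField.adjoin ℂ {t, s} ∧ y ∈ IntermediateField.adjoin ℂ {t, s} ∧
    g ∈ IntermediateField.adjoin ℂ {x, y} ∧ w = g * v ∧ v ^ 2 = Polynomial.aeval t P

lemma prod_poly {x y : K} (hxy : AlgebraicIndependent ℂ ![x, y]) {m : Fin 3 → V3}
    (hm : LinearIndependent ℂ m) {n : ℕ} {l : Fin n → V3} (T : Finset (Fin n))
    (hT : ∀ i ∈ T, l i ∈ Submodule.span ℂ {m 0, m 1}) :
    ∃ P : Polynomial ℂ, ∏ i ∈ T, ev (gp x y) (l i) = ev (gp x y) (m 0) ^ T.card *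
      Polynomial.aeval (ev (gp x y) (m 1) / ev (gp x y) (m 0)) P := by
  classical
  have hM0 := M_ne hxy hm 0
  induction T using Finset.induction_on with
  | empty => exact ⟨1, by simp⟩
  | insert a T ha ih =>
    obtain ⟨P, h⟩ := ih fun i hi => hT i (Finset.mem_insert_of_mem hi)
    obtain ⟨α, β, hαβ⟩ := Submodule.mem_span_pair.1 (hT a (Finset.mem_insert_self a T))
    have h1 : ev (gp x y) (l a) = ev (gp x y) (m 0) * (algebraMap ℂ K α + algebraMap ℂ K β *
        (ev (gp x y) (m 1) / ev (gp x y) (m 0))) := by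
      rw [← hαβ, ev_add, ev_smul, ev_smul]
      field_simp
    refine ⟨(Polynomial.C α + Polynomial.C β * Polynomial.X) * P, ?_⟩
    rw [Finset.prod_insert ha, Finset.card_insert_of_notMem ha, h, h1, map_mul, map_add, map_mul,
      Polynomial.aeval_C, Polynomial.aeval_C, Polynomial.aeval_X]
    ring

/-- **Double planes branched along lines.** -/
theorem good_lines_rel {x y : K} (hxy : AlgebraicIndependent ℂ ![x, y]) {d : ℕ}
    {l : Fin (2 * d) → V3} (hl : ∀ i j, i ≠ j → LinearIndependent ℂ ![l i, l j]) {v : K}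
    (hpg : NoTwo x y v) (hv : v ^ 2 = ∏ i, ev (gp x y) (l i)) :
    Good x y v ∨ Pencil x y v := by
  classical
  by_cases hpen : ∃ i j, i ≠ j ∧ ∀ k, l k ∈ Submodule.span ℂ {l i, l j}
  · right
    obtain ⟨i, j, hij, hall⟩ := hpen
    obtain ⟨m₂, hm₂⟩ := exists_linearIndependent_cons_of_lt_finrank (R := ℂ) (M := V3) (hl i j hij)
      (by simp)
    have hm' : LinearIndependent ℂ ![m₂, l i, l j] := hm₂
    have hm : LinearIndependent ℂ ![l i, l j, m₂] := by
      have h2 := hm'.comp ![1, 2, 0] (by decide)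
      convert h2 using 1
      ext i
      fin_cases i <;> rfl
    have hM0 : ev (gp x y) (l i) ≠ 0 := M_ne hxy hm 0
    obtain ⟨P, hP⟩ := prod_poly hxy hm (l := l) Finset.univ (fun k _ => hall k)
    change _ = ev (gp x y) (l i) ^ _ * Polynomial.aeval (ev (gp x y) (l j) / ev (gp x y) (l i)) P
      at hP
    rw [Finset.card_univ, Fintype.card_fin] at hP
    have hx : x ∈ IntermediateField.adjoin ℂ {x, y} :=
      IntermediateField.subset_adjoin _ _ (by simp)
    have hy : y ∈ IntermediateField.adjoin ℂ {x, y} :=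
      IntermediateField.subset_adjoin _ _ (by simp)
    obtain ⟨t, ht⟩ : ∃ t, t = ev (gp x y) (l j) / ev (gp x y) (l i) := ⟨_, rfl⟩
    obtain ⟨s, hs⟩ : ∃ s, s = ev (gp x y) m₂ / ev (gp x y) (l i) := ⟨_, rfl⟩
    obtain ⟨-, hxL, hyL⟩ := lin_mem hxy hm (L := IntermediateField.adjoin ℂ {t, s})
      (by
        change ev (gp x y) (l j) / ev (gp x y) (l i) ∈ _
        rw [← ht]
        exact IntermediateField.subset_adjoin _ _ (by simp))
      (by
        change ev (gp x y) m₂ / ev (gp x y) (l i) ∈ _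
        rw [← hs]
        exact IntermediateField.subset_adjoin _ _ (by simp))
    refine ⟨t, s, v / ev (gp x y) (l i) ^ d, ev (gp x y) (l i) ^ d, P, ?_, hxL, hyL, ?_, ?_, ?_⟩
    · rw [ht]
      exact div_mem (ev_mem hx hy _) (ev_mem hx hy _)
    · exact pow_mem (ev_mem hx hy _) d
    · field_simp
    · rw [div_pow, hv, hP, ← ht, ← pow_mul, mul_comm d 2]
      field_simp
  · left
    push Not at hpen
    rcases Nat.eq_zero_or_pos d with rfl | hd
    · have hx : x ∈ IntermediateField.adjoin ℂ {x, y} :=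
        IntermediateField.subset_adjoin _ _ (by simp)
      have hy : y ∈ IntermediateField.adjoin ℂ {x, y} :=
        IntermediateField.subset_adjoin _ _ (by simp)
      refine ⟨_, hx, hy, ?_, 2, embed_of_two hxy hx hy⟩
      have hv1 : v ^ 2 = 1 := hv
      have hv2 : (v - 1) * (v + 1) = 0 := by linear_combination hv1
      rcases mul_eq_zero.1 hv2 with h | h
      · rw [sub_eq_zero.1 h]
        exact one_mem _
      · rw [eq_neg_of_add_eq_zero_left h]
        exact neg_mem (one_mem _)
    have hl0 : ∀ i, l i ≠ 0 := by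
      intro i
      obtain ⟨j, hj⟩ : ∃ j : Fin (2 * d), i ≠ j := by
        by_cases h0 : i = ⟨0, by omega⟩
        · refine ⟨⟨1, by omega⟩, ?_⟩
          rw [h0]
          intro h
          simp at h
        · exact ⟨_, h0⟩
      exact (hl i j hj).ne_zero 0
    have hv0 : v ≠ 0 := by
      rintro rfl
      have h1 : (∏ i, ev (gp x y) (l i)) = 0 := by
        rw [← hv]
        ring
      obtain ⟨i, -, hi⟩ := Finset.prod_eq_zero_iff.1 h1
      exact ev_gp_ne_zero hxy (hl0 i) hi
    rcases Nat.lt_or_ge d 2 with hd2 | hd2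
    · -- two lines: a pencil
      obtain rfl : d = 1 := by omega
      exfalso
      obtain ⟨k, hk⟩ := hpen 0 1 (by decide)
      apply hk
      have h01 : ∀ k : Fin (2 * 1), k = 0 ∨ k = 1 := by decide
      obtain h | h := h01 k
      · rw [h]
        exact Submodule.subset_span (by simp)
      · rw [h]
        exact Submodule.subset_span (by simp)
    -- a point of high multiplicity
    obtain ⟨W, hW, hcard⟩ : ∃ W : Submodule ℂ V3, Module.finrank ℂ W ≤ 2 ∧
        2 * d - 2 ≤ (thr l W).card := by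
      rcases Nat.lt_or_ge d 3 with hd3 | hd3
      · obtain rfl : d = 2 := by omega
        have h01 : LinearIndependent ℂ ![l 0, l 1] := hl 0 1 (by decide)
        refine ⟨pt l 0 1, (finrank_pt h01).le, ?_⟩
        have h1 : ({0, 1} : Finset (Fin (2 * 2))) ⊆ thr l (pt l 0 1) := by
          intro k hk
          rw [mem_thr]
          rw [Finset.mem_insert, Finset.mem_singleton] at hk
          rcases hk with rfl | rfl
          · exact mem_pt_left _ _
          · exact mem_pt_right _ _
        have h2 := Finset.card_le_card h1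
        rw [Finset.card_pair (by decide)] at h2
        exact h2
      · exact exists_point' hxy hd3 hl hpg hv0 hv
    obtain ⟨i, hi, j, hj, hij⟩ := Finset.one_lt_card.1 (by omega : 1 < (thr l W).card)
    have hWpt : W = Submodule.span ℂ {l i, l j} :=
      eq_pt hW (hl i j hij) ((mem_thr l).1 hi) ((mem_thr l).1 hj)
    have hTspan : ∀ k ∈ thr l W, l k ∈ Submodule.span ℂ {l i, l j} := by
      intro k hk
      rw [← hWpt]
      exact (mem_thr l).1 hk
    have hnotspan : ∀ k, k ∉ thr l W → l k ∉ Submodule.span ℂ {l i, l j} := by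
      intro k hk h
      rw [← hWpt] at h
      exact hk ((mem_thr l).2 h)
    have hcompl : ((thr l W)ᶜ).card + (thr l W).card = 2 * d := by
      rw [Finset.card_compl, Fintype.card_fin]
      have := Finset.card_le_univ (thr l W)
      rw [Fintype.card_fin] at this
      omega
    have hprod : ∏ k, ev (gp x y) (l k) = (∏ k ∈ thr l W, ev (gp x y) (l k)) *
        ∏ k ∈ (thr l W)ᶜ, ev (gp x y) (l k) := (Finset.prod_mul_prod_compl _ _).symm
    rcases (by omega : ((thr l W)ᶜ).card = 0 ∨ ((thr l W)ᶜ).card = 1 ∨ ((thr l W)ᶜ).card = 2) with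
      h0 | h1 | h2
    · exfalso
      obtain ⟨k, hk⟩ := hpen i j hij
      apply hk
      apply hTspan
      by_contra hk'
      have := Finset.card_eq_zero.1 h0
      rw [Finset.compl_eq_empty_iff] at this
      rw [this] at hk'
      exact hk' (Finset.mem_univ k)
    · obtain ⟨k, hk⟩ := Finset.card_eq_one.1 h1
      have hkn : k ∉ thr l W := by
        rw [← Finset.mem_compl, hk]
        exact Finset.mem_singleton_self k
      refine good_one hxy (m := ![l i, l j, l k]) (li_three (hl i j hij) (hnotspan k hkn)) (d := d)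
        (l := l) hl0 (thr l W) hTspan (by omega) ?_
      rw [hv, hprod, hk, Finset.prod_singleton]
      rfl
    · obtain ⟨k, k', hkk, hk⟩ := Finset.card_eq_two.1 h2
      have hkn : k ∉ thr l W := by
        rw [← Finset.mem_compl, hk]
        simp
      refine good_two hxy (m := ![l i, l j, l k]) (li_three (hl i j hij) (hnotspan k hkn)) (d := d)
        (l := l) hl0 (thr l W) hTspan (by omega) (m' := l k') (hl k' k (Ne.symm hkk)) ?_
      rw [hv, hprod, hk, Finset.prod_pair hkk]
      rfl

/-- Square roots of arbitrary products of linear forms. -/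
theorem good_sqrt_rel {x y : K} (hxy : AlgebraicIndependent ℂ ![x, y]) {ι : Type} [DecidableEq ι]
    {l : ι → V3} (hl0 : ∀ i, l i ≠ 0) (T : Finset ι) {w : K} (hpg : NoTwo x y w)
    (hw : w ^ 2 = ∏ i ∈ T, ev (gp x y) (l i)) : Good x y w ∨ Pencil x y w := by
  classical
  -- an even number of lines
  obtain ⟨ι', _, l₁, hl₁, T₁, N, hN, hT₁⟩ : ∃ (ι' : Type) (_ : DecidableEq ι') (l₁ : ι' → V3)
      (_ : ∀ i, l₁ i ≠ 0) (T₁ : Finset ι') (N : ℕ), T₁.card = 2 * N ∧
      ∏ i ∈ T₁, ev (gp x y) (l₁ i) = ∏ i ∈ T, ev (gp x y) (l i) := by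
    obtain ⟨N, hN | hN⟩ := Nat.even_or_odd' T.card
    · exact ⟨ι, inferInstance, l, hl0, T, N, hN, rfl⟩
    · refine ⟨Option ι, inferInstance, fun i => i.elim (Pi.single 0 1) l, ?_,
        Finset.insertNone T, N + 1, ?_, ?_⟩
      · intro i
        cases i with
        | none =>
          intro h
          have := congrFun h 0
          simp at this
        | some i => exact hl0 i
      · rw [Finset.card_insertNone, hN]
        ring
      · rw [Finset.prod_insertNone]
        change ev (gp x y) (Pi.single 0 1) * _ = _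
        rw [ev_single]
        change 1 * _ = _
        rw [one_mul]
        rfl
  have hw0 : w ≠ 0 := by
    rintro rfl
    have h1 : ∏ i ∈ T, ev (gp x y) (l i) = 0 := by
      rw [← hw]
      ring
    obtain ⟨i, -, hi⟩ := Finset.prod_eq_zero_iff.1 h1
    exact ev_gp_ne_zero hxy (hl0 i) hi
  obtain ⟨d, l', hl', g, v, hg, hwg, hv⟩ := reduce hxy hl₁ N T₁ hN w (by rw [hw, hT₁])
  have hgE : g ∈ IntermediateField.adjoin ℂ ({x, y} : Set K) :=
    hg _ (IntermediateField.subset_adjoin _ _ (Or.inl rfl))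
      (IntermediateField.subset_adjoin _ _ (Or.inr rfl))
  have hg0 : g ≠ 0 := by
    rintro rfl
    apply hw0
    rw [hwg, zero_mul]
  have hpg' : NoTwo x y v := by
    intro A hA hreg
    have h1 := hpg (A * g) (mul_mem hA hgE) (fun P hP => by
      have h2 : A * g / w = A / v := by
        rw [hwg, mul_comm A g, mul_div_mul_left _ _ hg0]
      rw [h2]
      exact hreg P hP)
    exact (mul_eq_zero.1 h1).resolve_right hg0
  rcases good_lines_rel hxy hl' hpg' hv with ⟨L, hx, hy, hvL, hL⟩ | ⟨t, s, v', g', P, h1, h2, h3, h4, h5, h6⟩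
  · exact Or.inl ⟨L, hx, hy, by rw [hwg]; exact mul_mem (hg L hx hy) hvL, hL⟩
  · exact Or.inr ⟨t, s, v', g * g', P, h1, h2, h3, mul_mem hgE h4, by rw [hwg, h5, mul_assoc], h6⟩

/-- **The curve of a pencil.** -/
theorem relField_of_pencil {x y : K} (hxy : AlgebraicIndependent ℂ ![x, y])
    {k₀ : IntermediateField ℂ K} (hk₀ : k₀ = IntermediateField.adjoin ℂ {x, y}) {w : K}
    (hw0 : w ≠ 0) (h : Pencil x y w) :
    ∃ (t v : K) (P : Polynomial ℂ), v ^ 2 = Polynomial.aeval t P ∧
      RelField k₀ w (IntermediateField.adjoin ℂ {t, v}) := by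
  obtain ⟨t, s, v, g, P, ht, hx, hy, hg, hwg, hv⟩ := h
  refine ⟨t, v, P, hv, ?_⟩
  have hts := algInd_of_mem hxy hx hy
  obtain ⟨R₀, hR₀⟩ : ∃ R₀ : Subalgebra ℂ K, R₀ = Algebra.adjoin ℂ {t} := ⟨_, rfl⟩
  have htR₀ : t ∈ R₀ := by
    rw [hR₀]
    exact Algebra.subset_adjoin rfl
  have hs₀ : Transcendental R₀ s := by
    have h1 := hts.transcendental_adjoin (s := {0}) (i := 1) (by simp)
    rw [Set.image_singleton] at h1
    rw [hR₀]
    exact h1
  let R' : Subalgebra R₀ K := Algebra.adjoin R₀ {v}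
  let R : Subalgebra ℂ K := R'.restrictScalars ℂ
  have hR : R = Algebra.adjoin ℂ ({t} ∪ {v}) := by
    rw [Algebra.adjoin_union_eq_adjoin_adjoin, ← hR₀]
  have hvint : IsIntegral R₀ v := by
    have h1 : IsIntegral R₀ (v ^ 2) := by
      rw [hv]
      have h2 : Polynomial.aeval t P = algebraMap R₀ K (Polynomial.aeval (⟨t, htR₀⟩ : R₀) P) := by
        rw [← Polynomial.aeval_algebraMap_apply]
        rfl
      rw [h2]
      exact isIntegral_algebraMap
    exact IsIntegral.of_pow (by norm_num) h1
  have hR'int : Algebra.IsIntegral R₀ R' := Algebra.IsIntegral.adjoin (by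
    intro z hz
    rw [Set.mem_singleton_iff.1 hz]
    exact hvint)
  have hsR' : Transcendental R' s := fun h1 => hs₀ (h1.restrictScalars R₀)
  have hsR : Transcendental R s := hsR'
  let ψ : Polynomial R →ₐ[ℂ] K := (Polynomial.aeval s : Polynomial R →ₐ[R] K).restrictScalars ℂ
  have hψ : Function.Injective ψ := transcendental_iff_injective.1 hsR
  let ψ' : FractionRing (Polynomial R) →ₐ[ℂ] K := IsFractionRing.liftAlgHom (g := ψ) hψ
  have hψ' : ∀ p, ψ' (algebraMap (Polynomial R) _ p) = ψ p := fun p =>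
    IsFractionRing.lift_algebraMap hψ p
  have hψC : ∀ r : R, ψ' (algebraMap (Polynomial R) _ (Polynomial.C r)) = r := by
    intro r
    rw [hψ']
    exact Polynomial.aeval_C s r
  have hRL : ∀ r : R, (r : K) ∈ ψ'.fieldRange := fun r => ⟨_, hψC r⟩
  have hsL : s ∈ ψ'.fieldRange := ⟨algebraMap (Polynomial R) _ Polynomial.X, by
    change ψ' _ = s
    rw [hψ']
    exact Polynomial.aeval_X s⟩
  have htR : t ∈ R := by
    rw [hR]
    exact Algebra.subset_adjoin (Or.inl rfl)
  have hvR : v ∈ R := by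
    rw [hR]
    exact Algebra.subset_adjoin (Or.inr rfl)
  have htsL : IntermediateField.adjoin ℂ {t, s} ≤ ψ'.fieldRange := by
    rw [IntermediateField.adjoin_le_iff]
    rintro z (rfl | hz)
    · exact hRL ⟨_, htR⟩
    · rw [Set.mem_singleton_iff.1 hz]
      exact hsL
  have hk₀L : k₀ ≤ ψ'.fieldRange := by
    rw [hk₀, IntermediateField.adjoin_le_iff]
    rintro z (rfl | hz)
    · exact htsL hx
    · rw [Set.mem_singleton_iff.1 hz]
      exact htsL hy
  have hgk : g ∈ k₀ := by
    rw [hk₀]
    exact hg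
  have hg0 : g ≠ 0 := by
    rintro rfl
    rw [zero_mul] at hwg
    exact hw0 hwg
  refine ⟨R, ψ'.fieldRange, hRL, (AlgEquiv.ofInjectiveField ψ').symm.toAlgHom, hk₀L, ?_, ?_, ?_,
    ?_, ?_⟩
  · rw [hwg]
    exact mul_mem (hk₀L hgk) (hRL ⟨v, hvR⟩)
  · rw [hR]
    exact Subalgebra.fg_def.2 ⟨_, (Set.finite_singleton t).union (Set.finite_singleton v), rfl⟩
  · rintro ⟨r, hr⟩
    change r ∈ _
    rw [hR] at hr
    have h1 : Algebra.adjoin ℂ ({t} ∪ {v}) ≤ (IntermediateField.adjoin ℂ {t, v}).toSubalgebra := by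
      apply Algebra.adjoin_le
      rintro z (hz | hz)
      · rw [Set.mem_singleton_iff.1 hz]
        exact IntermediateField.subset_adjoin _ _ (by simp)
      · rw [Set.mem_singleton_iff.1 hz]
        exact IntermediateField.subset_adjoin _ _ (by simp)
    exact h1 hr
  · rintro ⟨r, hr⟩
    change r ∈ _
    rw [hR] at hr
    have h1 : Algebra.adjoin ℂ ({t} ∪ {v}) ≤
        ((IntermediateField.adjoin k₀ {w}).restrictScalars ℂ).toSubalgebra := by
      apply Algebra.adjoin_le
      have hk : ∀ z ∈ k₀, z ∈ IntermediateField.adjoin k₀ {w} := fun z hz =>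
        (IntermediateField.adjoin k₀ {w}).algebraMap_mem ⟨z, hz⟩
      rintro z (hz | hz)
      · rw [Set.mem_singleton_iff.1 hz]
        exact hk t (by rw [hk₀]; exact ht)
      · rw [Set.mem_singleton_iff.1 hz]
        have h2 : v = w / g := by
          rw [hwg]
          field_simp
        rw [h2]
        change w / g ∈ IntermediateField.adjoin k₀ {w}
        exact div_mem (IntermediateField.mem_adjoin_simple_self k₀ w) (hk g hgk)
    exact h1 hr
  · intro r
    change (AlgEquiv.ofInjectiveField ψ').symm ⟨(r : K), hRL r⟩ = _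
    rw [AlgEquiv.symm_apply_eq]
    apply Subtype.ext
    exact (hψC r).symm

end Pool.Agent.J4H13.RL
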